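import Pool.Agent.Helper36.KL.Goals

/-!
# Packet KV-EN (MP_66be51_an): energy estimate of order `m ≥ 3`
-/

namespace Pool.Agent.Helper5.KL

open Set Filter Topology MeasureTheory Pool.Agent.Helper36.KL
open scoped ContDiff

theorem D_apply (k : ℕ) (u : X) (x : ℝ) : (D k u).1 x = iteratedDeriv k u.1 x := rfl

theorem mulX_apply (u v : X) (x : ℝ) : (mulX u v).1 x = u.1 x * v.1 x := rfl

theorem D_zero (u : X) : D 0 u = u := Subtype.ext (iteratedDeriv_zero)

theorem D_D (k l : ℕ) (u : X) : D k (D l u) = D (k + l) u := Subtype.ext (iter_iter u.1 k l)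

theorem D_congr {a b : ℕ} (h : a = b) (u : X) : D a u = D b u := by rw [h]

theorem ip_comm (u v : X) : ip u v = ip v u := by
  rw [ip_apply, ip_apply]
  congr 1
  funext x
  ring

theorem ip_self_nonneg (u : X) : 0 ≤ ip u u := by
  rw [ip_apply]
  exact integral_nonneg fun x => mul_self_nonneg _

theorem ip_D (u v : X) : ip (D 1 u) v = - ip u (D 1 v) := ibp u.2 v.2

theorem two_ip_le (u v : X) : 2 * |ip u v| ≤ ip u u + ip v v := by
  have h1 := ip_self_nonneg (u + v)
  have h2 := ip_self_nonneg (u - v)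
  simp only [map_add, map_sub, LinearMap.add_apply, LinearMap.sub_apply] at h1 h2
  rw [ip_comm v u] at h1 h2
  rcases abs_cases (ip u v) with h | h <;> linarith

theorem hasDerivAt_X (u : X) (x : ℝ) : HasDerivAt u.1 ((D 1 u).1 x) x := by
  have := hasDerivAt_iter u.2.1 0 x
  rw [iteratedDeriv_zero] at this
  exact this

theorem D_mul (u v : X) : D 1 (mulX u v) = mulX (D 1 u) v + mulX u (D 1 v) := by
  apply Subtype.ext
  funext x
  have h1 := (hasDerivAt_X u x).mul (hasDerivAt_X v x)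
  have h2 : (D 1 (mulX u v)).1 x = deriv (u.1 * v.1) x := by
    rw [D_apply, iteratedDeriv_one]
    rfl
  rw [h2, h1.deriv]
  rfl

theorem FX_eq (u : X) : FX u = -(D 3 u) - (5 : ℝ) • mulX (mulX (mulX u u) (mulX u u)) (D 1 u) := by
  apply Subtype.ext
  funext x
  have h1 := (hasDerivAt_X u x).pow 5
  have h2 : (FX u).1 x = - iteratedDeriv 3 u.1 x - deriv (u.1 ^ 5) x := by
    change (Fun u.1) x = _
    unfold Fun
    rw [Pi.sub_apply, Pi.neg_apply, iteratedDeriv_one]
  rw [h2, h1.deriv]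
  change _ = - iteratedDeriv 3 u.1 x
    - 5 * ((u.1 x * u.1 x) * (u.1 x * u.1 x) * iteratedDeriv 1 u.1 x)
  rw [D_apply]
  push_cast
  ring

theorem mulX_add (u v v' : X) : mulX u (v + v') = mulX u v + mulX u v' := by
  apply Subtype.ext; funext x
  change u.1 x * (v.1 x + v'.1 x) = u.1 x * v.1 x + u.1 x * v'.1 x
  ring

/-- the commutator formula -/
theorem comm_formula (w : X) (k : ℕ) : ∀ v : X, D k (mulX w v) = mulX w (D k v)
    + ∑ i ∈ Finset.range k, D (k - 1 - i) (mulX (D 1 w) (D i v)) := by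
  induction k with
  | zero => intro v; simp [D_zero]
  | succ k ih =>
    intro v
    have h1 : D (k + 1) (mulX w v) = D k (D 1 (mulX w v)) := (D_D k 1 _).symm
    rw [h1, D_mul, map_add, ih (D 1 v), D_D, Finset.sum_range_succ']
    have h2 : ∀ i ∈ Finset.range k, D (k + 1 - 1 - (i + 1)) (mulX (D 1 w) (D (i + 1) v))
        = D (k - 1 - i) (mulX (D 1 w) (D i (D 1 v))) := by
      intro i hi
      rw [D_D]
      congr 1
      have : i < k := Finset.mem_range.1 hi
      congr 1
      omega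
    rw [Finset.sum_congr rfl h2]
    simp only [Nat.add_sub_cancel, Nat.sub_zero, D_zero]
    abel

/-- the form of order `m` as a sum of `ip` -/
theorem BB_ip (m : ℕ) (u v : X) :
    BB m u v = ∑ k ∈ Finset.range (m + 1), ip (D k u) (D k v) := by
  rw [BB_apply]
  rfl

theorem BB_nonneg (m : ℕ) (u : X) : 0 ≤ BB m u u := by
  rw [BB_ip]
  exact Finset.sum_nonneg fun k _ => ip_self_nonneg _

theorem ip_le_BB {k m : ℕ} (h : k ≤ m) (u : X) : ip (D k u) (D k u) ≤ BB m u u := by
  rw [BB_ip]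
  exact Finset.single_le_sum (f := fun k => ip (D k u) (D k u)) (fun k _ => ip_self_nonneg _)
    (Finset.mem_range.2 (by omega))

theorem BB_mono {l m : ℕ} (h : l ≤ m) (u : X) : BB l u u ≤ BB m u u := by
  rw [BB_ip, BB_ip]
  exact Finset.sum_le_sum_of_subset_of_nonneg (Finset.range_mono (by omega))
    (fun k _ _ => ip_self_nonneg _)

theorem BB_D_le {l j m : ℕ} (h : l + j ≤ m) (u : X) : BB l (D j u) (D j u) ≤ BB m u u := by
  refine le_trans ?_ (BB_mono h u)
  rw [BB_ip, BB_ip]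
  have h1 : ∀ k, ip (D k (D j u)) (D k (D j u)) = ip (D (k + j) u) (D (k + j) u) := by
    intro k; rw [D_D]
  simp only [h1]
  have h2 : ∑ k ∈ Finset.range (l + 1), ip (D (k + j) u) (D (k + j) u)
      = ∑ k ∈ (Finset.range (l + 1)).image (· + j), ip (D k u) (D k u) := by
    rw [Finset.sum_image]
    intro a _ b _ hab
    exact Nat.add_right_cancel hab
  rw [h2]
  apply Finset.sum_le_sum_of_subset_of_nonneg
  · intro a ha
    obtain ⟨b, hb, rfl⟩ := Finset.mem_image.1 ha
    have := Finset.mem_range.1 hb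
    exact Finset.mem_range.2 (by omega)
  · intro k _ _
    exact ip_self_nonneg _

/-- Sobolev bound -/
theorem sup_BB (u : X) (x : ℝ) : u.1 x ^ 2 ≤ BB 1 u u := by
  have h := sup_sq_le u.2 x
  have h2 : BB 1 u u = (∫ y, u.1 y ^ 2) + ∫ y, iteratedDeriv 1 u.1 y ^ 2 := by
    rw [BB_ip, Finset.sum_range_succ, Finset.sum_range_one, D_zero, ip_apply, ip_apply]
    congr 1
    · congr 1; funext y; ring
    · congr 1; funext y; rw [D_apply]; ring
  rw [h2]; exact h

theorem ip_mul_le {f g : X} {M : ℝ} (hM : ∀ x, f.1 x ^ 2 ≤ M) :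
    ip (mulX f g) (mulX f g) ≤ M * ip g g := by
  rw [ip_apply, ip_apply, ← integral_const_mul]
  refine integral_mono (int_mul (mulX f g).2 (mulX f g).2) ((int_mul g.2 g.2).const_mul M)
    (fun x => ?_)
  simp only [mulX_apply]
  have := mul_le_mul_of_nonneg_right (hM x) (mul_self_nonneg (g.1 x))
  linarith [this]

theorem abs_ip_mul_le {f g : X} {M : ℝ} (hM : ∀ x, |f.1 x| ≤ M) :
    |ip (mulX f g) g| ≤ M * ip g g := by
  rw [ip_apply, ip_apply, ← integral_const_mul]
  refine (abs_integral_le_integral_abs).trans ?_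
  refine integral_mono (int_mul (mulX f g).2 g.2).abs ((int_mul g.2 g.2).const_mul M)
    (fun x => ?_)
  simp only [mulX_apply]
  rw [mul_assoc, abs_mul, abs_mul_self]
  exact mul_le_mul_of_nonneg_right (hM x) (mul_self_nonneg (g.1 x))

theorem ip_mul_D (w h : X) : 2 * ip (mulX w (D 1 h)) h = - ip (mulX (D 1 w) h) h := by
  have h1 := ip_D (mulX w h) h
  rw [D_mul, map_add, LinearMap.add_apply] at h1
  have h2 : ip (mulX w h) (D 1 h) = ip (mulX w (D 1 h)) h := by
    rw [ip_apply, ip_apply]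
    congr 1
    funext x
    simp only [mulX_apply]
    ring
  rw [h2] at h1
  linarith

theorem ip_D3 (u : X) (k : ℕ) : ip (D k u) (D k (D 3 u)) = 0 := by
  have h1 : D k (D 3 u) = D 1 (D (k + 2) u) := by
    rw [D_D, D_D]; exact D_congr (by omega) u
  have h2 : D 1 (D k u) = D (k + 1) u := by rw [D_D]; exact D_congr (by omega) u
  have h3 : D (k + 2) u = D 1 (D (k + 1) u) := by rw [D_D]; exact D_congr (by omega) u
  have h4 := ip_D (D k u) (D (k + 2) u)
  have h5 := ip_D (D (k + 1) u) (D (k + 1) u)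
  rw [h1]
  have h6 : ip (D k u) (D 1 (D (k + 2) u)) = - ip (D (k + 1) u) (D 1 (D (k + 1) u)) := by
    rw [← h3, ← h2, h4, neg_neg]
  rw [h6]
  rw [ip_comm (D 1 (D (k + 1) u))] at h5
  linarith

theorem en : G_EN := by
  rintro ⟨hPa, hPb⟩ m hm L
  set Λ := |L| with hΛ
  have hΛ0 : 0 ≤ Λ := abs_nonneg _
  set W : X → X := fun u => mulX (mulX u u) (mulX u u) with hW
  -- bound of `BB (m-1) w w`
  obtain ⟨Ca, hCa⟩ := hPa (m - 1) (by omega)
  obtain ⟨Cb, hCb⟩ := hPb m (by omega)
  set A := |Ca| * ((|Ca| * (Λ * Λ)) * (|Ca| * (Λ * Λ))) with hA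
  have hA0 : 0 ≤ A := by positivity
  have hu2 : ∀ u : X, BB (m - 1) u u ≤ L → BB (m - 1) (mulX u u) (mulX u u) ≤ |Ca| * (Λ * Λ) := by
    intro u hu
    have h0 := BB_nonneg (m - 1) u
    have h1 : BB (m - 1) u u ≤ Λ := hu.trans (le_abs_self L)
    refine (hCa u u).trans ?_
    calc Ca * (BB (m - 1) u u * BB (m - 1) u u) ≤ |Ca| * (BB (m - 1) u u * BB (m - 1) u u) :=
          mul_le_mul_of_nonneg_right (le_abs_self _) (mul_nonneg h0 h0)
      _ ≤ |Ca| * (Λ * Λ) := mul_le_mul_of_nonneg_left (mul_le_mul h1 h1 h0 hΛ0) (abs_nonneg _)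
  have hw1 : ∀ u : X, BB (m - 1) u u ≤ L → BB (m - 1) (W u) (W u) ≤ A := by
    intro u hu
    have h0 := BB_nonneg (m - 1) (mulX u u)
    have h1 := hu2 u hu
    refine (hCa (mulX u u) (mulX u u)).trans ?_
    calc Ca * (BB (m - 1) (mulX u u) (mulX u u) * BB (m - 1) (mulX u u) (mulX u u))
        ≤ |Ca| * (BB (m - 1) (mulX u u) (mulX u u) * BB (m - 1) (mulX u u) (mulX u u)) :=
          mul_le_mul_of_nonneg_right (le_abs_self _) (mul_nonneg h0 h0)
      _ ≤ A := mul_le_mul_of_nonneg_left (mul_le_mul h1 h1 h0 (h0.trans h1)) (abs_nonneg _)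
  -- bound of `BB m w w`
  set A' := |Cb| * (2 * (|Ca| * (Λ * Λ))) * (|Cb| * (2 * Λ)) with hA'
  have hA'0 : 0 ≤ A' := by positivity
  have hw2 : ∀ u : X, BB (m - 1) u u ≤ L → BB m (W u) (W u) ≤ A' * BB m u u := by
    intro u hu
    have h0 := BB_nonneg (m - 1) u
    have h1 : BB (m - 1) u u ≤ Λ := hu.trans (le_abs_self L)
    have hm0 := BB_nonneg m u
    have h2 : BB m (mulX u u) (mulX u u) ≤ |Cb| * (2 * Λ) * BB m u u := by
      refine (hCb u u).trans ?_
      calc Cb * (BB m u u * BB (m - 1) u u + BB (m - 1) u u * BB m u u)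
          = Cb * (2 * (BB m u u * BB (m - 1) u u)) := by ring
        _ ≤ |Cb| * (2 * (BB m u u * BB (m - 1) u u)) :=
            mul_le_mul_of_nonneg_right (le_abs_self _) (by positivity)
        _ ≤ |Cb| * (2 * (BB m u u * Λ)) := by gcongr
        _ = |Cb| * (2 * Λ) * BB m u u := by ring
    have h3 := hu2 u hu
    have h4 := BB_nonneg m (mulX u u)
    have h5 := BB_nonneg (m - 1) (mulX u u)
    refine (hCb (mulX u u) (mulX u u)).trans ?_
    calc Cb * (BB m (mulX u u) (mulX u u) * BB (m - 1) (mulX u u) (mulX u u)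
          + BB (m - 1) (mulX u u) (mulX u u) * BB m (mulX u u) (mulX u u))
        = Cb * (2 * (BB m (mulX u u) (mulX u u) * BB (m - 1) (mulX u u) (mulX u u))) := by ring
      _ ≤ |Cb| * (2 * (BB m (mulX u u) (mulX u u) * BB (m - 1) (mulX u u) (mulX u u))) :=
          mul_le_mul_of_nonneg_right (le_abs_self _) (by positivity)
      _ ≤ |Cb| * (2 * ((|Cb| * (2 * Λ) * BB m u u) * (|Ca| * (Λ * Λ)))) := by gcongr
      _ = A' * BB m u u := by rw [hA']; ring
  -- sup bound of `D w`
  have hsup : ∀ u : X, BB (m - 1) u u ≤ L → ∀ x, (D 1 (W u)).1 x ^ 2 ≤ A := by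
    intro u hu x
    exact (sup_BB (D 1 (W u)) x).trans ((BB_D_le (by omega : 1 + 1 ≤ m - 1) (W u)).trans (hw1 u hu))
  -- commutator terms
  have hcom : ∀ l : ℕ, ∃ C : ℝ, 0 ≤ C ∧ ∀ u : X, BB (m - 1) u u ≤ L → ∀ j ≥ 1, l + j ≤ m →
      ip (D l (mulX (D 1 (W u)) (D j u))) (D l (mulX (D 1 (W u)) (D j u))) ≤ C * BB m u u := by
    intro l
    rcases Nat.lt_or_ge l 1 with hl | hl
    · have hl0 : l = 0 := by omega
      subst hl0
      refine ⟨A, hA0, fun u hu j hj hjm => ?_⟩
      rw [D_zero]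
      refine (ip_mul_le (hsup u hu)).trans ?_
      exact mul_le_mul_of_nonneg_left (ip_le_BB (by omega) u) hA0
    · rcases Nat.lt_or_ge l 2 with hl2 | hl2
      · have hl1 : l = 1 := by omega
        subst hl1
        obtain ⟨C, hC⟩ := hPa 1 le_rfl
        refine ⟨|C| * A, by positivity, fun u hu j hj hjm => ?_⟩
        refine (ip_le_BB le_rfl _).trans ((hC _ _).trans ?_)
        have e1 : BB 1 (D 1 (W u)) (D 1 (W u)) ≤ A :=
          (BB_D_le (by omega : 1 + 1 ≤ m - 1) (W u)).trans (hw1 u hu)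
        have e2 : BB 1 (D j u) (D j u) ≤ BB m u u := BB_D_le hjm u
        have n1 := BB_nonneg 1 (D 1 (W u))
        have n2 := BB_nonneg 1 (D j u)
        calc C * (BB 1 (D 1 (W u)) (D 1 (W u)) * BB 1 (D j u) (D j u))
            ≤ |C| * (BB 1 (D 1 (W u)) (D 1 (W u)) * BB 1 (D j u) (D j u)) :=
              mul_le_mul_of_nonneg_right (le_abs_self _) (mul_nonneg n1 n2)
          _ ≤ |C| * (A * BB m u u) :=
              mul_le_mul_of_nonneg_left (mul_le_mul e1 e2 n2 hA0) (abs_nonneg _)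
          _ = |C| * A * BB m u u := by ring
      · obtain ⟨C, hC⟩ := hPb l hl2
        refine ⟨|C| * (A' * Λ + A), by positivity, fun u hu j hj hjm => ?_⟩
        refine (ip_le_BB le_rfl _).trans ((hC _ _).trans ?_)
        have e1 : BB l (D 1 (W u)) (D 1 (W u)) ≤ A' * BB m u u :=
          (BB_D_le (by omega : l + 1 ≤ m) (W u)).trans (hw2 u hu)
        have e2 : BB (l - 1) (D j u) (D j u) ≤ Λ :=
          (BB_D_le (by omega : l - 1 + j ≤ m - 1) u).trans (hu.trans (le_abs_self L))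
        have e3 : BB (l - 1) (D 1 (W u)) (D 1 (W u)) ≤ A :=
          (BB_D_le (by omega : l - 1 + 1 ≤ m - 1) (W u)).trans (hw1 u hu)
        have e4 : BB l (D j u) (D j u) ≤ BB m u u := BB_D_le hjm u
        have n1 := BB_nonneg l (D 1 (W u))
        have n2 := BB_nonneg (l - 1) (D j u)
        have n3 := BB_nonneg (l - 1) (D 1 (W u))
        have n4 := BB_nonneg l (D j u)
        have n5 := BB_nonneg m u
        calc C * (BB l (D 1 (W u)) (D 1 (W u)) * BB (l - 1) (D j u) (D j u)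
              + BB (l - 1) (D 1 (W u)) (D 1 (W u)) * BB l (D j u) (D j u))
            ≤ |C| * (BB l (D 1 (W u)) (D 1 (W u)) * BB (l - 1) (D j u) (D j u)
              + BB (l - 1) (D 1 (W u)) (D 1 (W u)) * BB l (D j u) (D j u)) :=
              mul_le_mul_of_nonneg_right (le_abs_self _)
                (add_nonneg (mul_nonneg n1 n2) (mul_nonneg n3 n4))
          _ ≤ |C| * ((A' * BB m u u) * Λ + A * BB m u u) := by
              apply mul_le_mul_of_nonneg_left _ (abs_nonneg _)
              exact add_le_add (mul_le_mul e1 e2 n2 (mul_nonneg hA'0 n5))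
                (mul_le_mul e3 e4 n4 hA0)
          _ = |C| * (A' * Λ + A) * BB m u u := by ring
  choose c hc0 hc using hcom
  set Ct := ∑ l ∈ Finset.range (m + 1), c l with hCt
  have hCt0 : 0 ≤ Ct := Finset.sum_nonneg fun l _ => hc0 l
  have hcle : ∀ l ≤ m, c l ≤ Ct := fun l hl =>
    Finset.single_le_sum (f := c) (fun i _ => hc0 i) (Finset.mem_range.2 (by omega))
  -- final constant
  refine ⟨5 * ((m + 1) * (√A + m * (1 + Ct))), by positivity, fun u hu => ?_⟩
  have hB0 := BB_nonneg m u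
  set B := BB m u u with hB
  have hterm : ∀ k ∈ Finset.range (m + 1),
      |ip (D k u) (D k (mulX (W u) (D 1 u)))| ≤ (√A + m * (1 + Ct)) * B := by
    intro k hk
    have hkm : k ≤ m := by have := Finset.mem_range.1 hk; omega
    rw [comm_formula, map_add, map_sum]
    have t1 : |ip (D k u) (mulX (W u) (D k (D 1 u)))| ≤ √A * B := by
      have e1 : D k (D 1 u) = D 1 (D k u) := by rw [D_D, D_D]; exact D_congr (by omega) u
      rw [e1, ip_comm]
      have h1 := ip_mul_D (W u) (D k u)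
      have h2 := abs_ip_mul_le (f := D 1 (W u)) (g := D k u) (M := √A)
        (fun x => Real.abs_le_sqrt (hsup u hu x))
      have h3 : |2 * ip (mulX (W u) (D 1 (D k u))) (D k u)| = |ip (mulX (D 1 (W u)) (D k u)) (D k u)| := by
        rw [h1, abs_neg]
      rw [abs_mul, abs_of_pos (two_pos : (0 : ℝ) < 2)] at h3
      have h4 : √A * ip (D k u) (D k u) ≤ √A * B :=
        mul_le_mul_of_nonneg_left (ip_le_BB hkm u) (Real.sqrt_nonneg _)
      have h5 := abs_nonneg (ip (mulX (W u) (D 1 (D k u))) (D k u))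
      linarith
    have t2 : |∑ i ∈ Finset.range k, ip (D k u) (D (k - 1 - i) (mulX (D 1 (W u)) (D i (D 1 u))))|
        ≤ m * (1 + Ct) * B := by
      refine (Finset.abs_sum_le_sum_abs _ _).trans ?_
      have h1 : ∀ i ∈ Finset.range k,
          |ip (D k u) (D (k - 1 - i) (mulX (D 1 (W u)) (D i (D 1 u))))| ≤ (1 + Ct) * B := by
        intro i hi
        have hik : i < k := Finset.mem_range.1 hi
        rw [D_D]
        have h2 := two_ip_le (D k u) (D (k - 1 - i) (mulX (D 1 (W u)) (D (i + 1) u)))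
        have h3 := ip_le_BB hkm u
        have h4 := hc (k - 1 - i) u hu (i + 1) (by omega) (by omega)
        have h5 : c (k - 1 - i) * B ≤ Ct * B :=
          mul_le_mul_of_nonneg_right (hcle _ (by omega)) hB0
        have h6 := mul_nonneg hCt0 hB0
        nlinarith [abs_nonneg (ip (D k u) (D (k - 1 - i) (mulX (D 1 (W u)) (D (i + 1) u))))]
      calc _ ≤ ∑ i ∈ Finset.range k, (1 + Ct) * B := Finset.sum_le_sum h1
        _ = k * ((1 + Ct) * B) := by rw [Finset.sum_const, Finset.card_range, nsmul_eq_mul]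
        _ ≤ m * ((1 + Ct) * B) := by
            apply mul_le_mul_of_nonneg_right
            · exact_mod_cast hkm
            · positivity
        _ = m * (1 + Ct) * B := by ring
    calc _ ≤ |ip (D k u) (mulX (W u) (D k (D 1 u)))|
          + |∑ i ∈ Finset.range k, ip (D k u) (D (k - 1 - i) (mulX (D 1 (W u)) (D i (D 1 u))))| :=
          abs_add_le _ _
      _ ≤ √A * B + m * (1 + Ct) * B := add_le_add t1 t2
      _ = (√A + m * (1 + Ct)) * B := by ring
  have hmain : |BB m u (mulX (W u) (D 1 u))| ≤ (m + 1) * ((√A + m * (1 + Ct)) * B) := by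
    rw [BB_ip]
    refine (Finset.abs_sum_le_sum_abs _ _).trans ((Finset.sum_le_sum hterm).trans ?_)
    rw [Finset.sum_const, Finset.card_range, nsmul_eq_mul]
    push_cast
    exact le_rfl
  have hdisp : BB m u (D 3 u) = 0 := by
    rw [BB_ip]
    exact Finset.sum_eq_zero fun k _ => ip_D3 u k
  have hFX : BB m u (FX u) = - (5 * BB m u (mulX (W u) (D 1 u))) := by
    rw [FX_eq, map_sub, map_neg, map_smul, hdisp, smul_eq_mul]
    ring
  rw [hFX]
  have h7 := neg_abs_le (BB m u (mulX (W u) (D 1 u)))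
  have h8 : 0 ≤ 5 * ((m + 1) * (√A + m * (1 + Ct))) := by positivity
  calc - (5 * BB m u (mulX (W u) (D 1 u))) ≤ 5 * ((m + 1) * ((√A + m * (1 + Ct)) * B)) := by
        linarith
    _ = 5 * ((m + 1) * (√A + m * (1 + Ct))) * B := by ring
    _ ≤ 5 * ((m + 1) * (√A + m * (1 + Ct))) * (1 + B) :=
        mul_le_mul_of_nonneg_left (by linarith) h8

end Pool.Agent.Helper5.KL
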