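import Pool.Agent.Helper36.KL.Goals

/-!
# Packet KV-WT (MP_66be51_an): derivative of a weighted integral
-/

namespace Pool.Agent.Helper5.KL

open Set Filter Topology MeasureTheory Pool.Agent.Helper36.KL
open scoped ContDiff

theorem bint' {c h : ℝ → ℝ} {M : ℝ} (hg : Integrable h) (hc : Continuous c)
    (hM : ∀ y, |c y| ≤ M) : Integrable (fun y => c y * h y) :=
  hg.bdd_mul hc.aestronglyMeasurable (Filter.Eventually.of_forall fun y => by
    rw [Real.norm_eq_abs]; exact hM y)

/-- Cauchy–Schwarz for a weighted product -/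
theorem cs_weight {p u v : ℝ → ℝ} {P : ℝ} (hp : Continuous p) (hP : ∀ x, |p x| ≤ P)
    (hu : u ∈ HI) (hv : v ∈ HI) :
    |∫ x, p x * (u x * v x)| ≤ P * (√(∫ x, u x ^ 2) * √(∫ x, v x ^ 2)) := by
  have hP0 : 0 ≤ P := (abs_nonneg _).trans (hP 0)
  have i1 := int_sq hu
  have i2 := int_sq hv
  have i3 := int_mul hu hv
  have h : ∀ t : ℝ, 0 ≤ (∫ y, v y ^ 2) * (t * t) + (2 * ∫ y, |u y * v y|) * t + ∫ y, u y ^ 2 := by
    intro t
    have h1 : ∫ y, (|u y| + t * |v y|) ^ 2 =
        (∫ y, v y ^ 2) * (t * t) + (2 * ∫ y, |u y * v y|) * t + ∫ y, u y ^ 2 := by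
      have h2 : (fun y => (|u y| + t * |v y|) ^ 2) =
          fun y => (t * t) * v y ^ 2 + (2 * t) * |u y * v y| + u y ^ 2 := by
        funext y
        rw [abs_mul, ← sq_abs (u y), ← sq_abs (v y)]
        ring
      have j1 : Integrable (fun y => (t * t) * v y ^ 2) := i2.const_mul _
      have j2 : Integrable (fun y => (2 * t) * |u y * v y|) := i3.abs.const_mul _
      have j3 : Integrable (fun y => (t * t) * v y ^ 2 + (2 * t) * |u y * v y|) := j1.add j2
      rw [h2, integral_add j3 i1, integral_add j1 j2, integral_const_mul, integral_const_mul]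
      ring
    rw [← h1]
    exact integral_nonneg fun y => sq_nonneg _
  have hd := discrim_le_zero h
  unfold discrim at hd
  have hu0 : 0 ≤ ∫ x, u x ^ 2 := integral_nonneg fun y => sq_nonneg _
  have hv0 : 0 ≤ ∫ x, v x ^ 2 := integral_nonneg fun y => sq_nonneg _
  have h4 : ∫ y, |u y * v y| ≤ √(∫ x, u x ^ 2) * √(∫ x, v x ^ 2) := by
    rw [← Real.sqrt_mul hu0]
    apply Real.le_sqrt_of_sq_le
    nlinarith
  calc |∫ x, p x * (u x * v x)| ≤ ∫ x, |p x * (u x * v x)| := abs_integral_le_integral_abs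
    _ ≤ ∫ x, P * |u x * v x| := by
        refine integral_mono (bint' i3 hp hP).abs (i3.abs.const_mul P) fun x => ?_
        simp only
        rw [abs_mul (p x)]
        exact mul_le_mul_of_nonneg_right (hP x) (abs_nonneg _)
    _ = P * ∫ x, |u x * v x| := integral_const_mul _ _
    _ ≤ _ := mul_le_mul_of_nonneg_left h4 hP0

/-- `(s - t) A s` has derivative `A t` at `t` -/
theorem hasDeriv_sub_mul {A : ℝ → ℝ} {I : Set ℝ} {t : ℝ} (hA : ContinuousWithinAt A I t) :
    HasDerivWithinAt (fun s => (s - t) * A s) (A t) I t := by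
  rw [hasDerivWithinAt_iff_tendsto_slope]
  have h1 : Tendsto A (𝓝[I \ {t}] t) (𝓝 (A t)) := hA.mono_left (nhdsWithin_mono _ sdiff_subset)
  refine h1.congr' ?_
  filter_upwards [self_mem_nhdsWithin] with s hs
  have hne : s - t ≠ 0 := sub_ne_zero.2 hs.2
  rw [slope_def_field]
  field_simp
  ring

theorem hasDeriv_small {R : ℝ → ℝ} {I : Set ℝ} {t : ℝ} (h0 : R t = 0)
    (h : ∀ ε > 0, ∃ η > 0, ∀ s ∈ I, |s - t| ≤ η → |R s| ≤ ε * |s - t|) :
    HasDerivWithinAt R 0 I t := by
  rw [hasDerivWithinAt_iff_isLittleO, Asymptotics.isLittleO_iff]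
  intro ε hε
  obtain ⟨η, hη, hh⟩ := h ε hε
  have h1 : ∀ᶠ s in 𝓝[I] t, s ∈ I := self_mem_nhdsWithin
  have h2 : ∀ᶠ s in 𝓝[I] t, |s - t| < η := by
    apply mem_nhdsWithin_of_mem_nhds
    have := Metric.ball_mem_nhds t hη
    filter_upwards [this] with s hs
    rwa [Metric.mem_ball, Real.dist_eq] at hs
  filter_upwards [h1, h2] with s hs1 hs2
  simp only [h0, sub_zero, smul_zero, Real.norm_eq_abs]
  exact hh s hs1 hs2.le

section

variable {a b : ℝ} {p p' : ℝ → ℝ → ℝ} {P : ℝ}

/-- continuity of `s ↦ ∫ p s h` -/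
theorem cont_weight (hp : ∀ t ∈ Icc a b, ∀ x, HasDerivWithinAt (fun s => p s x) (p' t x) (Icc a b) t)
    (hP : ∀ t ∈ Icc a b, ∀ x, |p t x| ≤ P ∧ |p' t x| ≤ P)
    (hc : ∀ t ∈ Icc a b, Continuous (p t) ∧ Continuous (p' t)) {h : ℝ → ℝ} (hh : Integrable h)
    {t : ℝ} (ht : t ∈ Icc a b) :
    ContinuousWithinAt (fun s => ∫ x, p s x * h x) (Icc a b) t := by
  unfold ContinuousWithinAt
  refine tendsto_integral_filter_of_dominated_convergence (fun x => P * |h x|) ?_ ?_
    (hh.abs.const_mul P) ?_
  · filter_upwards [self_mem_nhdsWithin] with s hs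
    exact (hc s hs).1.aestronglyMeasurable.mul hh.aestronglyMeasurable
  · filter_upwards [self_mem_nhdsWithin] with s hs
    refine ae_of_all _ fun x => ?_
    rw [Real.norm_eq_abs, abs_mul]
    exact mul_le_mul_of_nonneg_right (hP s hs x).1 (abs_nonneg _)
  · refine ae_of_all _ fun x => ?_
    exact ((hp t ht x).continuousWithinAt.tendsto).mul_const (h x)

/-- derivative of `s ↦ ∫ p s h` -/
theorem deriv_weight (hp : ∀ t ∈ Icc a b, ∀ x, HasDerivWithinAt (fun s => p s x) (p' t x) (Icc a b) t)
    (hP : ∀ t ∈ Icc a b, ∀ x, |p t x| ≤ P ∧ |p' t x| ≤ P)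
    (hc : ∀ t ∈ Icc a b, Continuous (p t) ∧ Continuous (p' t)) {h : ℝ → ℝ} (hh : Integrable h)
    {t : ℝ} (ht : t ∈ Icc a b) :
    HasDerivWithinAt (fun s => ∫ x, p s x * h x) (∫ x, p' t x * h x) (Icc a b) t := by
  rw [hasDerivWithinAt_iff_tendsto_slope]
  have hint : ∀ s ∈ Icc a b, Integrable (fun x => p s x * h x) := fun s hs =>
    bint' hh (hc s hs).1 (fun x => (hP s hs x).1)
  have hlip : ∀ s ∈ Icc a b, ∀ x, |p s x - p t x| ≤ P * |s - t| := by
    intro s hs x
    have := (convex_Icc a b).norm_image_sub_le_of_norm_hasDerivWithin_le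
      (f := fun s => p s x) (f' := fun t => p' t x) (C := P) (fun y hy => hp y hy x)
      (fun y hy => by rw [Real.norm_eq_abs]; exact (hP y hy x).2) ht hs
    simpa [Real.norm_eq_abs] using this
  have h1 : Tendsto (fun s => ∫ x, slope (fun s => p s x) t s * h x) (𝓝[Icc a b \ {t}] t)
      (𝓝 (∫ x, p' t x * h x)) := by
    refine tendsto_integral_filter_of_dominated_convergence (fun x => P * |h x|) ?_ ?_
      (hh.abs.const_mul P) ?_
    · filter_upwards [self_mem_nhdsWithin] with s hs
      have hcs : Continuous (fun x => slope (fun s => p s x) t s) := by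
        simp only [slope_def_field]
        exact ((hc s hs.1).1.sub (hc t ht).1).div_const _
      exact hcs.aestronglyMeasurable.mul hh.aestronglyMeasurable
    · filter_upwards [self_mem_nhdsWithin] with s hs
      refine ae_of_all _ fun x => ?_
      rw [Real.norm_eq_abs, abs_mul]
      refine mul_le_mul_of_nonneg_right ?_ (abs_nonneg _)
      have hne : 0 < |s - t| := abs_pos.2 (sub_ne_zero.2 hs.2)
      rw [slope_def_field, abs_div, div_le_iff₀ hne]
      exact hlip s hs.1 x
    · refine ae_of_all _ fun x => ?_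
      exact ((hasDerivWithinAt_iff_tendsto_slope.1 (hp t ht x))).mul_const (h x)
  refine h1.congr' ?_
  filter_upwards [self_mem_nhdsWithin] with s hs
  rw [slope_def_field, ← integral_sub (hint s hs.1) (hint t ht), ← integral_div]
  congr 1
  funext x
  rw [slope_def_field]
  ring

end

theorem wt : G_WT := by
  intro a b f f' g g' p p' P hf hg hp hP hc t ht
  have hP0 : 0 ≤ P := (abs_nonneg _).trans (hP t ht 0).1
  -- remainders
  set rf : ℝ → ℝ → ℝ := fun s => f s - f t - (s - t) • f' t with hrf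
  set rg : ℝ → ℝ → ℝ := fun s => g s - g t - (s - t) • g' t with hrg
  have mf := hf.mem
  have mg := hg.mem
  have mf' := hf.mem'
  have mg' := hg.mem'
  have mrf : ∀ s ∈ Icc a b, rf s ∈ HI := fun s hs =>
    HI.sub_mem (HI.sub_mem (mf s hs) (mf t ht)) (HI.smul_mem _ (mf' t ht))
  have mrg : ∀ s ∈ Icc a b, rg s ∈ HI := fun s hs =>
    HI.sub_mem (HI.sub_mem (mg s hs) (mg t ht)) (HI.smul_mem _ (mg' t ht))
  have bi : ∀ s ∈ Icc a b, ∀ u v : ℝ → ℝ, u ∈ HI → v ∈ HI →
      Integrable (fun x => p s x * (u x * v x)) := fun s hs u v hu hv =>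
    bint' (int_mul hu hv) (hc s hs).1 (fun x => (hP s hs x).1)
  -- pieces
  set R : ℝ → ℝ := fun s => (∫ x, p s x * (rf s x * g s x)) + (∫ x, p s x * (f t x * rg s x))
    + (s - t) * ∫ x, p s x * (f' t x * rg s x) with hR
  have hdec : ∀ s ∈ Icc a b, ∫ x, p s x * f s x * g s x =
      (∫ x, p s x * (f t x * g t x)) +
      (s - t) * ((∫ x, p s x * (f' t x * g t x)) + ∫ x, p s x * (f t x * g' t x)) +
      (s - t) * ((s - t) * ∫ x, p s x * (f' t x * g' t x)) + R s := by
    intro s hs
    have j1 := bi s hs _ _ (mf t ht) (mg t ht)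
    have j2 := bi s hs _ _ (mf' t ht) (mg t ht)
    have j3 := bi s hs _ _ (mf t ht) (mg' t ht)
    have j4 := bi s hs _ _ (mf' t ht) (mg' t ht)
    have j5 := bi s hs _ _ (mrf s hs) (mg s hs)
    have j6 := bi s hs _ _ (mf t ht) (mrg s hs)
    have j7 := bi s hs _ _ (mf' t ht) (mrg s hs)
    have e : (fun x => p s x * f s x * g s x) = fun x =>
        (((((p s x * (f t x * g t x) + (s - t) * (p s x * (f' t x * g t x)))
        + (s - t) * (p s x * (f t x * g' t x))) + ((s - t) * (s - t)) * (p s x * (f' t x * g' t x)))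
        + p s x * (rf s x * g s x)) + p s x * (f t x * rg s x))
        + (s - t) * (p s x * (f' t x * rg s x)) := by
      funext x
      have e1 : rf s x = f s x - f t x - (s - t) * f' t x := rfl
      have e2 : rg s x = g s x - g t x - (s - t) * g' t x := rfl
      rw [e1, e2]
      ring
    have k2 : Integrable (fun x => (s - t) * (p s x * (f' t x * g t x))) := j2.const_mul _
    have k3 : Integrable (fun x => (s - t) * (p s x * (f t x * g' t x))) := j3.const_mul _
    have k4 : Integrable (fun x => ((s - t) * (s - t)) * (p s x * (f' t x * g' t x))) :=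
      j4.const_mul _
    have k7 : Integrable (fun x => (s - t) * (p s x * (f' t x * rg s x))) := j7.const_mul _
    have l2 : Integrable (fun x => p s x * (f t x * g t x) + (s - t) * (p s x * (f' t x * g t x))) :=
      j1.add k2
    have l3 : Integrable (fun x => (p s x * (f t x * g t x) + (s - t) * (p s x * (f' t x * g t x)))
        + (s - t) * (p s x * (f t x * g' t x))) := l2.add k3
    have l4 : Integrable (fun x => ((p s x * (f t x * g t x) + (s - t) * (p s x * (f' t x * g t x)))
        + (s - t) * (p s x * (f t x * g' t x)))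
        + ((s - t) * (s - t)) * (p s x * (f' t x * g' t x))) := l3.add k4
    have l5 : Integrable (fun x => (((p s x * (f t x * g t x) + (s - t) * (p s x * (f' t x * g t x)))
        + (s - t) * (p s x * (f t x * g' t x)))
        + ((s - t) * (s - t)) * (p s x * (f' t x * g' t x))) + p s x * (rf s x * g s x)) := l4.add j5
    have l6 : Integrable (fun x => ((((p s x * (f t x * g t x) + (s - t) * (p s x * (f' t x * g t x)))
        + (s - t) * (p s x * (f t x * g' t x)))
        + ((s - t) * (s - t)) * (p s x * (f' t x * g' t x))) + p s x * (rf s x * g s x))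
        + p s x * (f t x * rg s x)) := l5.add j6
    rw [e, integral_add l6 k7, integral_add l5 j6, integral_add l4 j5, integral_add l3 k4,
      integral_add l2 k3, integral_add j1 k2, integral_const_mul, integral_const_mul,
      integral_const_mul, integral_const_mul]
    rw [hR]
    ring
  -- derivatives of the pieces
  have d1 := deriv_weight hp hP hc (int_mul (mf t ht) (mg t ht)) ht
  have c2 := cont_weight hp hP hc (int_mul (mf' t ht) (mg t ht)) ht
  have c3 := cont_weight hp hP hc (int_mul (mf t ht) (mg' t ht)) ht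
  have c4 := cont_weight hp hP hc (int_mul (mf' t ht) (mg' t ht)) ht
  have d2 := hasDeriv_sub_mul (c2.add c3)
  have c5 : ContinuousWithinAt (fun s => (s - t) * ∫ x, p s x * (f' t x * g' t x)) (Icc a b) t :=
    (continuousWithinAt_id.sub continuousWithinAt_const).mul c4
  have d3 := hasDeriv_sub_mul c5
  have hrft : rf t = 0 := by
    rw [hrf]; funext x; simp
  have hrgt : rg t = 0 := by
    rw [hrg]; funext x; simp
  have hRt : R t = 0 := by
    rw [hR]
    simp [hrft, hrgt]
  have d4 : HasDerivWithinAt R 0 (Icc a b) t := by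
    apply hasDeriv_small hRt
    intro ε hε
    obtain ⟨Lg, hLg⟩ := hg.bdd 0
    set Q := P * (√Lg + √(∫ x, f t x ^ 2) + √(∫ x, f' t x ^ 2)) with hQ
    have hQ0 : 0 ≤ Q := by positivity
    set κ := ε / (Q + 1) with hκ
    have hκ0 : 0 < κ := by positivity
    have hQκ : Q * κ ≤ ε := by
      rw [hκ]
      have : Q * (ε / (Q + 1)) = ε * (Q / (Q + 1)) := by ring
      rw [this]
      have h1 : Q / (Q + 1) ≤ 1 := by
        rw [div_le_one (by positivity)]; linarith
      nlinarith
    obtain ⟨η1, hη1, h1⟩ := hf.derL2 0 t ht (κ ^ 2) (by positivity)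
    obtain ⟨η2, hη2, h2⟩ := hg.derL2 0 t ht (κ ^ 2) (by positivity)
    refine ⟨min (min η1 η2) 1, by positivity, fun s hs hst => ?_⟩
    have hst1 : |s - t| ≤ η1 := hst.trans ((min_le_left _ _).trans (min_le_left _ _))
    have hst2 : |s - t| ≤ η2 := hst.trans ((min_le_left _ _).trans (min_le_right _ _))
    have hst3 : |s - t| ≤ 1 := hst.trans (min_le_right _ _)
    have e1 : √(∫ x, rf s x ^ 2) ≤ κ * |s - t| := by
      have := h1 s hs hst1
      simp only [iteratedDeriv_zero] at this
      apply Real.sqrt_le_iff.2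
      refine ⟨by positivity, ?_⟩
      rw [mul_pow, sq_abs]
      exact this
    have e2 : √(∫ x, rg s x ^ 2) ≤ κ * |s - t| := by
      have := h2 s hs hst2
      simp only [iteratedDeriv_zero] at this
      apply Real.sqrt_le_iff.2
      refine ⟨by positivity, ?_⟩
      rw [mul_pow, sq_abs]
      exact this
    have e3 : √(∫ x, g s x ^ 2) ≤ √Lg := by
      have := hLg s hs
      simp only [iteratedDeriv_zero] at this
      exact Real.sqrt_le_sqrt this
    have b1 := cs_weight (hc s hs).1 (fun x => (hP s hs x).1) (mrf s hs) (mg s hs)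
    have b2 := cs_weight (hc s hs).1 (fun x => (hP s hs x).1) (mf t ht) (mrg s hs)
    have b3 := cs_weight (hc s hs).1 (fun x => (hP s hs x).1) (mf' t ht) (mrg s hs)
    have n1 := Real.sqrt_nonneg (∫ x, f t x ^ 2)
    have n2 := Real.sqrt_nonneg (∫ x, f' t x ^ 2)
    have n3 := Real.sqrt_nonneg Lg
    have B1 : |∫ x, p s x * (rf s x * g s x)| ≤ P * (κ * |s - t| * √Lg) := by
      refine b1.trans (mul_le_mul_of_nonneg_left ?_ hP0)
      exact mul_le_mul e1 e3 (Real.sqrt_nonneg _) (by positivity)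
    have B2 : |∫ x, p s x * (f t x * rg s x)| ≤ P * (√(∫ x, f t x ^ 2) * (κ * |s - t|)) := by
      refine b2.trans (mul_le_mul_of_nonneg_left ?_ hP0)
      exact mul_le_mul_of_nonneg_left e2 n1
    have B3 : |∫ x, p s x * (f' t x * rg s x)| ≤ P * (√(∫ x, f' t x ^ 2) * (κ * |s - t|)) := by
      refine b3.trans (mul_le_mul_of_nonneg_left ?_ hP0)
      exact mul_le_mul_of_nonneg_left e2 n2
    have B4 : |(s - t) * ∫ x, p s x * (f' t x * rg s x)|
        ≤ P * (√(∫ x, f' t x ^ 2) * (κ * |s - t|)) := by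
      rw [abs_mul]
      have := mul_le_mul hst3 B3 (abs_nonneg _) zero_le_one
      rwa [one_mul] at this
    calc |R s| ≤ |∫ x, p s x * (rf s x * g s x)| + |∫ x, p s x * (f t x * rg s x)|
          + |(s - t) * ∫ x, p s x * (f' t x * rg s x)| := by
            rw [hR]
            exact (abs_add_le _ _).trans (add_le_add_left (abs_add_le _ _) _)
      _ ≤ P * (κ * |s - t| * √Lg) + P * (√(∫ x, f t x ^ 2) * (κ * |s - t|))
          + P * (√(∫ x, f' t x ^ 2) * (κ * |s - t|)) := by linarith
      _ = Q * κ * |s - t| := by rw [hQ]; ring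
      _ ≤ ε * |s - t| := mul_le_mul_of_nonneg_right hQκ (abs_nonneg _)
  have hsum := ((d1.add d2).add d3).add d4
  refine HasDerivWithinAt.congr_deriv (hsum.congr (fun s hs => ?_) ?_) ?_
  · rw [hdec s hs]
    rfl
  · rw [hdec t ht]
    rfl
  have f1 : (∫ x, p' t x * f t x * g t x) = ∫ x, p' t x * (f t x * g t x) := by
    congr 1; funext x; ring
  have f2 : (∫ x, p t x * f' t x * g t x) = ∫ x, p t x * (f' t x * g t x) := by
    congr 1; funext x; ring
  have f3 : (∫ x, p t x * f t x * g' t x) = ∫ x, p t x * (f t x * g' t x) := by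
    congr 1; funext x; ring
  rw [f1, f2, f3]
  simp
  ring

end Pool.Agent.Helper5.KL
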